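import Mathlib
import Pool.Agent.H74.NilHomog

set_option autoImplicit false

namespace Pool.Agent.Results.MP_3d7de8_lc.Solvable

open Pool.Agent.H74.NilHomog

/-- The free `n`-solvable associative `K`-algebra on `r` generators (given by its universal
property) is logically homogeneous. -/
theorem result :
    ∀ (K : Type) [Field K] (n r : ℕ), 1 ≤ n → 1 ≤ r →
      ∀ (A : Type) [NonUnitalRing A] [Module K A] [IsScalarTower K A A] [SMulCommClass K A A]
        (x : Fin r → A),
        derived K A n = ⊥ →
        (∀ (B : Type) [NonUnitalRing B] [Module K B] [IsScalarTower K B B] [SMulCommClass K B B],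
          derived K B n = ⊥ → ∀ f : Fin r → B, ∃! φ : A →ₙₐ[K] B, ∀ i, φ (x i) = f i) →
        Homogeneous K A := by
  intro K _ n r _ _ A _ _ _ _ x h0 hU
  refine homog_assoc x (hU A h0) (fun S f => (hU S ?_ f).exists) ⟨2 ^ n - 1, ?_⟩
  · rw [eq_bot_iff]
    intro z hz
    have := map_derived (NonUnitalSubalgebraClass.subtype S) n z hz
    rw [h0, Submodule.mem_bot] at this
    exact Subtype.ext this
  · have := P_le_derived K A n
    rw [h0] at this
    exact le_bot_iff.1 this

end Pool.Agent.Results.MP_3d7de8_lc.Solvable
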